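import Mathlib

/-!
Cyclic interval colourings and interval colouring thickness.
-/

namespace Pool.Agent.CIT

variable {V : Type*}

/-- The palette of `v`: the set of colours on the edges of `G` at `v`. -/
def palette (G : SimpleGraph V) (α : Sym2 V → ℕ) (v : V) : Set ℕ :=
  {c | ∃ u, G.Adj v u ∧ α s(v, u) = c}

/-- `α` restricted to the edges of `G` is a proper edge colouring with the colours
`1, …, t`, all of them used. -/
structure IsEdgeColoring (G : SimpleGraph V) (t : ℕ) (α : Sym2 V → ℕ) : Prop where
  range : ∀ e ∈ G.edgeSet, 1 ≤ α e ∧ α e ≤ t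
  surj : ∀ c, 1 ≤ c → c ≤ t → ∃ e ∈ G.edgeSet, α e = c
  proper : ∀ v u u', G.Adj v u → G.Adj v u' → u ≠ u' → α s(v, u) ≠ α s(v, u')

/-- Interval `t`-colouring: every palette is a set of consecutive integers. -/
def IsIntervalColoring (G : SimpleGraph V) (t : ℕ) (α : Sym2 V → ℕ) : Prop :=
  IsEdgeColoring G t α ∧ ∀ v, (palette G α v).OrdConnected

/-- Interval colourable graphs. -/
def IntervalColorable (G : SimpleGraph V) : Prop :=
  ∃ (t : ℕ) (α : Sym2 V → ℕ), IsIntervalColoring G t α

/-- Cyclic interval `t`-colouring. -/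
def IsCyclicIntervalColoring (G : SimpleGraph V) (t : ℕ) (α : Sym2 V → ℕ) : Prop :=
  IsEdgeColoring G t α ∧ ∀ v, (palette G α v).OrdConnected ∨
    ∃ a b : ℕ, a + b ≤ t ∧ palette G α v = Set.Icc 1 a ∪ Set.Icc (t - b + 1) t

/-- The subgraph of `G` (on all vertices) whose edges are the edges of class `i`. -/
def part (G : SimpleGraph V) {k : ℕ} (p : Sym2 V → Fin k) (i : Fin k) : SimpleGraph V where
  Adj v u := G.Adj v u ∧ p s(v, u) = i
  symm := ⟨fun v u h => ⟨h.1.symm, by rw [Sym2.eq_swap]; exact h.2⟩⟩
  loopless := ⟨fun v h => G.loopless.irrefl v h.1⟩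

/-- `θ_int(G) ≤ k`: the edge set can be partitioned into `k` classes (possibly empty), each of
which forms an interval colourable subgraph. -/
def ThicknessLE (G : SimpleGraph V) (k : ℕ) : Prop :=
  ∃ p : Sym2 V → Fin k, ∀ i, IntervalColorable (part G p i)

/-- A colouring with proper interval palettes, colours between `1` and `N`, can be compressed. -/
theorem intervalColorable_of (F : SimpleGraph V) : ∀ (N : ℕ) (β : Sym2 V → ℕ),
    (∀ e ∈ F.edgeSet, 1 ≤ β e ∧ β e ≤ N) →
    (∀ v u u', F.Adj v u → F.Adj v u' → u ≠ u' → β s(v, u) ≠ β s(v, u')) →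
    (∀ v a b c, a ∈ palette F β v → b ∈ palette F β v → a < c → c < b →
      c ∈ palette F β v) → IntervalColorable F := by
  intro N
  induction N with
  | zero =>
    intro β h1 h2 h3
    refine ⟨0, β, ⟨h1, ?_, h2⟩, ?_⟩
    · intro c hc hc'
      omega
    · intro v
      refine ⟨?_⟩
      intro a ha b hb c hc
      rcases eq_or_lt_of_le hc.1 with h | h
      · rw [← h]; exact ha
      rcases eq_or_lt_of_le hc.2 with h' | h'
      · rw [h']; exact hb
      exact h3 v a b c ha hb h h'
  | succ N ih =>
    intro β h1 h2 h3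
    by_cases hall : ∀ c, 1 ≤ c → c ≤ N + 1 → ∃ e ∈ F.edgeSet, β e = c
    · refine ⟨N + 1, β, ⟨h1, hall, h2⟩, ?_⟩
      intro v
      refine ⟨?_⟩
      intro a ha b hb c hc
      rcases eq_or_lt_of_le hc.1 with h | h
      · rw [← h]; exact ha
      rcases eq_or_lt_of_le hc.2 with h' | h'
      · rw [h']; exact hb
      exact h3 v a b c ha hb h h'
    · push Not at hall
      obtain ⟨d, hd1, hd2, hd3⟩ := hall
      have hne : ∀ v u, F.Adj v u → β s(v, u) ≠ d := fun v u h =>
        hd3 _ ((SimpleGraph.mem_edgeSet F).2 h)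
      -- palettes lie on one side of `d`
      have hside : ∀ v u u', F.Adj v u → F.Adj v u' → β s(v, u) < d → β s(v, u') < d := by
        intro v u u' h h' hlt
        by_contra hge
        have h5 : β s(v, u') ≠ d := hne v u' h'
        have h6 : d ∈ palette F β v :=
          h3 v _ _ d ⟨u, h, rfl⟩ ⟨u', h', rfl⟩ hlt (by omega)
        obtain ⟨u2, h7, h8⟩ := h6
        exact hne v u2 h7 h8
      apply ih (fun e => if d < β e then β e - 1 else β e)
      · intro e he
        have h4 := h1 e he
        have h5 := hd3 e he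
        have h6 : 1 ≤ (if d < β e then β e - 1 else β e) ∧
            (if d < β e then β e - 1 else β e) ≤ N := by
          split_ifs <;> omega
        exact h6
      · intro v u u' h h' hu heq
        have h4 := h2 v u u' h h' hu
        have h5 := hne v u h
        have h6 := hne v u' h'
        have h7 := hside v u u' h h'
        have h8 := hside v u' u h' h
        have h9 : (if d < β s(v, u) then β s(v, u) - 1 else β s(v, u)) =
            (if d < β s(v, u') then β s(v, u') - 1 else β s(v, u')) := heq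
        split_ifs at h9 <;> omega
      · rintro v a b c ⟨u, hu, rfl⟩ ⟨u', hu', rfl⟩ hac hcb
        have h5 := hne v u hu
        have h6 := hne v u' hu'
        have h7 := hside v u u' hu hu'
        have h8 := hside v u' u hu' hu
        replace hac : (if d < β s(v, u) then β s(v, u) - 1 else β s(v, u)) < c := hac
        replace hcb : c < (if d < β s(v, u') then β s(v, u') - 1 else β s(v, u')) := hcb
        by_cases hlt : β s(v, u) < d
        · have h9 := h7 hlt
          rw [if_neg (by omega)] at hac
          rw [if_neg (by omega)] at hcb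
          obtain ⟨u2, h10, h11⟩ := h3 v _ _ c ⟨u, hu, rfl⟩ ⟨u', hu', rfl⟩ hac hcb
          refine ⟨u2, h10, ?_⟩
          show (if d < β s(v, u2) then β s(v, u2) - 1 else β s(v, u2)) = c
          rw [if_neg (by omega)]
          exact h11
        · have h9 : d < β s(v, u) := by omega
          have h10 : d < β s(v, u') := by
            by_contra hcon
            have h11 : β s(v, u') < d := by omega
            exact hlt (h8 h11)
          rw [if_pos h9] at hac
          rw [if_pos h10] at hcb
          obtain ⟨u2, h11, h12⟩ := h3 v _ _ (c + 1) ⟨u, hu, rfl⟩ ⟨u', hu', rfl⟩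
            (by omega) (by omega)
          refine ⟨u2, h11, ?_⟩
          show (if d < β s(v, u2) then β s(v, u2) - 1 else β s(v, u2)) = c
          rw [if_pos (by omega)]
          omega

/-- The thickness bound from a class function and a new colouring. -/
theorem thicknessLE_of (G : SimpleGraph V) {k N : ℕ} (p : Sym2 V → Fin k) (β : Sym2 V → ℕ)
    (h1 : ∀ v u, G.Adj v u → 1 ≤ β s(v, u) ∧ β s(v, u) ≤ N)
    (h2 : ∀ v u u', G.Adj v u → G.Adj v u' → u ≠ u' → β s(v, u) ≠ β s(v, u'))
    (h3 : ∀ v u u' c, G.Adj v u → G.Adj v u' → p s(v, u) = p s(v, u') → β s(v, u) < c →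
      c < β s(v, u') → ∃ u2, G.Adj v u2 ∧ p s(v, u2) = p s(v, u) ∧ β s(v, u2) = c) :
    ThicknessLE G k := by
  refine ⟨p, fun i => ?_⟩
  apply intervalColorable_of (part G p i) N β
  · intro e
    induction e using Sym2.ind with
    | h v u =>
      intro he
      have h : (part G p i).Adj v u := he
      exact h1 v u h.1
  · intro v u u' h h' hu
    exact h2 v u u' h.1 h'.1 hu
  · rintro v a b c ⟨u, hu, rfl⟩ ⟨u', hu', rfl⟩ hac hcb
    obtain ⟨u2, h4, h5, h6⟩ := h3 v u u' c hu.1 hu'.1 (by rw [hu.2, hu'.2]) hac hcb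
    exact ⟨u2, ⟨h4, by rw [h5]; exact hu.2⟩, h6⟩

/-- Cutting the colours into `k` arcs of length at most `w`. -/
theorem thicknessLE_arcs (G : SimpleGraph V) (t k w : ℕ) (α : Sym2 V → ℕ) (hw : 1 ≤ w)
    (hk : 1 ≤ k) (ht : t ≤ k * w) (hα : IsEdgeColoring G t α)
    (hP : ∀ v a b c, a ∈ palette G α v → b ∈ palette G α v → a < c → c < b → b < a + w →
      c ∈ palette G α v) : ThicknessLE G k := by
  have hr : ∀ v u, G.Adj v u → 1 ≤ α s(v, u) ∧ α s(v, u) ≤ t := fun v u h =>
    hα.range _ ((SimpleGraph.mem_edgeSet G).2 h)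
  have hlt : ∀ c, 1 ≤ c → c ≤ t → (c - 1) / w < k := by
    intro c h1 h2
    rw [Nat.div_lt_iff_lt_mul (by omega)]
    omega
  refine thicknessLE_of G (N := t)
    (fun e => if h : (α e - 1) / w < k then (⟨(α e - 1) / w, h⟩ : Fin k) else ⟨0, hk⟩) α hr
    hα.proper ?_
  intro v u u' c h h' hp hac hcb
  have h1 := hr v u h
  have h2 := hr v u' h'
  have h3 := hlt _ h1.1 h1.2
  have h4 := hlt _ h2.1 h2.2
  rw [dif_pos h3, dif_pos h4] at hp
  have h5 : (α s(v, u) - 1) / w = (α s(v, u') - 1) / w := by
    have := congrArg Fin.val hp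
    exact this
  have h6 : α s(v, u') < α s(v, u) + w := by
    have e1 := Nat.div_add_mod (α s(v, u) - 1) w
    have e2 := Nat.div_add_mod (α s(v, u') - 1) w
    have e3 := Nat.mod_lt (α s(v, u') - 1) (show w > 0 by omega)
    rw [h5] at e1
    omega
  obtain ⟨u2, h7, h8⟩ := hP v _ _ c ⟨u, h, rfl⟩ ⟨u', h', rfl⟩ hac hcb h6
  refine ⟨u2, h7, ?_, h8⟩
  have h9 := hr v u2 h7
  have h10 := hlt _ h9.1 h9.2
  rw [dif_pos h10, dif_pos h3]
  have h11 : (α s(v, u2) - 1) / w = (α s(v, u) - 1) / w := by
    apply le_antisymm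
    · rw [h5]
      exact Nat.div_le_div_right (by omega)
    · exact Nat.div_le_div_right (by omega)
  exact Fin.ext h11

/-- The property of the palettes of a cyclic interval colouring: the gap is long. -/
theorem palette_form [Fintype V] [DecidableEq V] (G : SimpleGraph V) [DecidableRel G.Adj]
    {t : ℕ} {α : Sym2 V → ℕ} (hα : IsCyclicIntervalColoring G t α) (v : V) :
    (palette G α v).OrdConnected ∨ ∃ p q : ℕ, p + (t + 1 - G.maxDegree) ≤ q ∧ q ≤ t + 1 ∧
      palette G α v = {c | (1 ≤ c ∧ c ≤ p) ∨ (q ≤ c ∧ c ≤ t)} := by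
  rcases hα.2 v with h | ⟨a, b, hab, h⟩
  · exact Or.inl h
  · right
    refine ⟨a, t - b + 1, ?_, by omega, ?_⟩
    · have h1 : Finset.Icc 1 a ∪ Finset.Icc (t - b + 1) t ⊆
          (G.neighborFinset v).image (fun u => α s(v, u)) := by
        intro c hc
        rw [Finset.mem_union, Finset.mem_Icc, Finset.mem_Icc] at hc
        have h2 : c ∈ palette G α v := by
          rw [h]
          rcases hc with hc | hc
          · exact Or.inl hc
          · exact Or.inr hc
        obtain ⟨u, hu, hu2⟩ := h2
        rw [Finset.mem_image]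
        exact ⟨u, (SimpleGraph.mem_neighborFinset G v u).2 hu, hu2⟩
      have h3 := Finset.card_le_card h1
      have h4 : (Finset.Icc 1 a ∪ Finset.Icc (t - b + 1) t).card = a + b := by
        rw [Finset.card_union_of_disjoint]
        · rw [Nat.card_Icc, Nat.card_Icc]
          omega
        · rw [Finset.disjoint_left]
          intro c hc hc'
          rw [Finset.mem_Icc] at hc hc'
          omega
      have h5 : ((G.neighborFinset v).image (fun u => α s(v, u))).card ≤ G.maxDegree := by
        refine le_trans Finset.card_image_le ?_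
        rw [SimpleGraph.card_neighborFinset_eq_degree]
        exact G.degree_le_maxDegree v
      omega
    · rw [h]
      ext c
      simp only [Set.mem_union, Set.mem_Icc, Set.mem_ofPred_eq]

end Pool.Agent.CIT
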