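import Pool.Agent.Helper63_CIT.Basic

/-!
The case `t = k w + 1` of the thickness bound.
-/

namespace Pool.Agent.CIT

variable {V : Type*}

/-- The main case: `t = m w + 2 w + 1`, `k = m + 2`, `w ≥ 2`. -/
theorem thicknessLE_main (G : SimpleGraph V) (t m w : ℕ) (α : Sym2 V → ℕ) (hw : 2 ≤ w)
    (ht : t = m * w + 2 * w + 1) (hα : IsEdgeColoring G t α)
    (hform : ∀ v, (palette G α v).OrdConnected ∨ ∃ p q : ℕ, p + w ≤ q ∧ q ≤ t + 1 ∧
      palette G α v = {c | (1 ≤ c ∧ c ≤ p) ∨ (q ≤ c ∧ c ≤ t)}) : ThicknessLE G (m + 2) := by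
  classical
  obtain ⟨F, hF⟩ : ∃ F, F = m * w := ⟨_, rfl⟩
  rw [← hF] at ht
  have hr : ∀ v u, G.Adj v u → 1 ≤ α s(v, u) ∧ α s(v, u) ≤ t := fun v u h =>
    hα.range _ ((SimpleGraph.mem_edgeSet G).2 h)
  have hSr : ∀ v c, c ∈ palette G α v → 1 ≤ c ∧ c ≤ t := by
    rintro v c ⟨u, hu, rfl⟩
    exact hr v u hu
  -- short gaps do not occur
  have hP : ∀ v a b c, a ∈ palette G α v → b ∈ palette G α v → a < c → c < b → b < a + w →
      c ∈ palette G α v := by
    intro v a b c ha hb hac hcb hbw
    rcases hform v with h | ⟨p, q, hpq, hq, h⟩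
    · exact h.out ha hb ⟨hac.le, hcb.le⟩
    · rw [h] at ha hb ⊢
      simp only [Set.mem_ofPred_eq] at ha hb ⊢
      omega
  -- bad vertices
  obtain ⟨bad, hbad⟩ : ∃ bad : V → Prop, ∀ v, bad v ↔ (F + w + 1 ∈ palette G α v ∧
      t ∈ palette G α v ∧ ∃ c, F + w + 1 < c ∧ c < t ∧ c ∉ palette G α v) :=
    ⟨_, fun v => Iff.rfl⟩
  obtain ⟨R, hR⟩ : ∃ R : V → Prop, ∀ v, R v ↔ (F + w + 1 ∈ palette G α v ∧
      F + w ∉ palette G α v ∧ ∃ c, F + 1 ≤ c ∧ c < F + w ∧ c ∈ palette G α v) :=
    ⟨_, fun v => Iff.rfl⟩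
  have hbad1 : ∀ v, bad v → ∀ c, c ∈ palette G α v ↔ (1 ≤ c ∧ c ≤ F + w + 1) ∨ c = t := by
    intro v hv
    obtain ⟨h1, h2, c, h3, h4, h5⟩ := (hbad v).1 hv
    rcases hform v with h | ⟨p, q, hpq, hq, h⟩
    · exact absurd (h.out h1 h2 ⟨h3.le, h4.le⟩) h5
    · rw [h] at h1 h2 h5 ⊢
      simp only [Set.mem_ofPred_eq] at h1 h2 h5 ⊢
      intro c'
      omega
  have hgood : ∀ v, ¬ bad v → ∀ a b c, F + w + 1 ≤ a → a ∈ palette G α v →
      b ∈ palette G α v → a < c → c < b → c ∈ palette G α v := by
    intro v hv a b c hfa ha hb hac hcb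
    have hb2 := (hSr v b hb).2
    by_cases hab : b < a + w
    · exact hP v a b c ha hb hac hcb hab
    · have e1 : a = F + w + 1 := by omega
      have e2 : b = t := by omega
      by_contra hcon
      exact hv ((hbad v).2 ⟨e1 ▸ ha, e2 ▸ hb, c, by omega, by omega, hcon⟩)
  have hR1 : ∀ v, R v → ∀ c, F + w + 1 ≤ c → c ≤ t → c ∈ palette G α v := by
    intro v hv c hc1 hc2
    obtain ⟨h1, h2, d, h3, h4, h5⟩ := (hR v).1 hv
    rcases hform v with h | ⟨p, q, hpq, hq, h⟩
    · exact absurd (h.out h5 h1 ⟨by omega, by omega⟩) h2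
    · rw [h] at h1 h2 h5 ⊢
      simp only [Set.mem_ofPred_eq] at h1 h2 h5 ⊢
      omega
  have hRbad : ∀ v, R v → ¬ bad v := by
    intro v hv hv'
    exact ((hR v).1 hv).2.1 ((hbad1 v hv' _).2 (by omega))
  -- the classes
  obtain ⟨arc, harc⟩ : ∃ arc : ℕ → ℕ, ∀ c, arc c =
      if c ≤ F then (c - 1) / w else if c ≤ F + w then m else m + 1 := ⟨_, fun c => rfl⟩
  have harc0 : ∀ c, 1 ≤ c → c ≤ F → arc c < m := by
    intro c h1 h2
    rw [harc, if_pos h2, Nat.div_lt_iff_lt_mul (by omega)]
    omega
  have harc1 : ∀ c, 1 ≤ c → (arc c = m ↔ F + 1 ≤ c ∧ c ≤ F + w) := by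
    intro c h1
    by_cases h2 : c ≤ F
    · have := harc0 c h1 h2
      omega
    · rw [harc, if_neg h2]
      split_ifs <;> omega
  have harc2 : ∀ c, 1 ≤ c → (arc c = m + 1 ↔ F + w + 1 ≤ c) := by
    intro c h1
    by_cases h2 : c ≤ F
    · have := harc0 c h1 h2
      omega
    · rw [harc, if_neg h2]
      split_ifs <;> omega
  obtain ⟨hasB, hhasB⟩ : ∃ hasB : Sym2 V → Prop, ∀ v u, hasB s(v, u) ↔ (bad v ∨ bad u) := by
    refine ⟨fun e => ∃ x, x ∈ e ∧ bad x, ?_⟩
    intro v u
    constructor
    · rintro ⟨x, hx, hx2⟩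
      rcases Sym2.mem_iff.1 hx with rfl | rfl
      · exact Or.inl hx2
      · exact Or.inr hx2
    · rintro (h | h)
      · exact ⟨v, Sym2.mem_iff.2 (Or.inl rfl), h⟩
      · exact ⟨u, Sym2.mem_iff.2 (Or.inr rfl), h⟩
  obtain ⟨hasR, hhasR⟩ : ∃ hasR : Sym2 V → Prop, ∀ v u, hasR s(v, u) ↔ (R v ∨ R u) := by
    refine ⟨fun e => ∃ x, x ∈ e ∧ R x, ?_⟩
    intro v u
    constructor
    · rintro ⟨x, hx, hx2⟩
      rcases Sym2.mem_iff.1 hx with rfl | rfl
      · exact Or.inl hx2
      · exact Or.inr hx2
    · rintro (h | h)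
      · exact ⟨v, Sym2.mem_iff.2 (Or.inl rfl), h⟩
      · exact ⟨u, Sym2.mem_iff.2 (Or.inr rfl), h⟩
  obtain ⟨β, hβ⟩ : ∃ β : Sym2 V → ℕ, ∀ e, β e =
      if α e = F + w + 1 ∧ hasB e ∧ hasR e then t + 1 else α e := ⟨_, fun e => rfl⟩
  obtain ⟨cls, hcls⟩ : ∃ cls : Sym2 V → ℕ, ∀ e, cls e =
      if α e = F + w + 1 ∧ hasB e then (if hasR e then m + 1 else m) else arc (α e) :=
    ⟨_, fun e => rfl⟩
  -- the three kinds of edges
  have hkind : ∀ e, (α e = F + w + 1 ∧ hasB e ∧ hasR e ∧ β e = t + 1 ∧ cls e = m + 1) ∨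
      (α e = F + w + 1 ∧ hasB e ∧ ¬ hasR e ∧ β e = F + w + 1 ∧ cls e = m) ∨
      (¬ (α e = F + w + 1 ∧ hasB e) ∧ β e = α e ∧ cls e = arc (α e)) := by
    intro e
    by_cases h1 : α e = F + w + 1 ∧ hasB e
    · by_cases h2 : hasR e
      · left
        refine ⟨h1.1, h1.2, h2, ?_, ?_⟩
        · rw [hβ, if_pos ⟨h1.1, h1.2, h2⟩]
        · rw [hcls, if_pos h1, if_pos h2]
      · right; left
        refine ⟨h1.1, h1.2, h2, ?_, ?_⟩
        · rw [hβ, if_neg (fun h => h2 h.2.2)]
          exact h1.1
        · rw [hcls, if_pos h1, if_neg h2]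
    · right; right
      refine ⟨h1, ?_, ?_⟩
      · rw [hβ, if_neg (fun h => h1 ⟨h.1, h.2.1⟩)]
      · rw [hcls, if_neg h1]
  have harclt : ∀ c, 1 ≤ c → arc c < m + 2 := by
    intro c h1
    by_cases h2 : c ≤ F
    · have := harc0 c h1 h2
      omega
    · rw [harc, if_neg h2]
      split_ifs <;> omega
  have hclslt : ∀ v u, G.Adj v u → cls s(v, u) < m + 2 := by
    intro v u h
    have h1 := harclt _ (hr v u h).1
    rcases hkind s(v, u) with h2 | h2 | h2 <;> omega
  refine thicknessLE_of G (N := t + 1)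
    (fun e => if h : cls e < m + 2 then (⟨cls e, h⟩ : Fin (m + 2)) else ⟨0, by omega⟩) β ?_ ?_ ?_
  · intro v u h
    have h1 := hr v u h
    rcases hkind s(v, u) with h2 | h2 | h2 <;> omega
  · intro v u u' h h' hu
    have h1 := hr v u h
    have h2 := hr v u' h'
    have h3 := hα.proper v u u' h h' hu
    rcases hkind s(v, u) with h4 | h4 | h4 <;> rcases hkind s(v, u') with h5 | h5 | h5 <;> omega
  · intro v u u' c h h' hp hac hcb
    have hlt1 := hclslt v u h
    have hlt2 := hclslt v u' h'
    rw [dif_pos hlt1, dif_pos hlt2] at hp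
    have hcc : cls s(v, u) = cls s(v, u') := congrArg Fin.val hp
    clear hp
    have hA := hr v u h
    have hB := hr v u' h'
    have hAS : α s(v, u) ∈ palette G α v := ⟨u, h, rfl⟩
    have hBS : α s(v, u') ∈ palette G α v := ⟨u', h', rfl⟩
    -- it suffices to find the colour `c` in the old palette
    suffices hsuff : c ∈ palette G α v ∧ c ≠ F + w + 1 ∧ arc c = cls s(v, u) by
      obtain ⟨⟨u2, h1, h2⟩, h3, h4⟩ := hsuff
      have h5 : β s(v, u2) = c ∧ cls s(v, u2) = arc c := by
        rcases hkind s(v, u2) with h6 | h6 | h6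
        · omega
        · omega
        · exact ⟨by omega, by rw [h6.2.2, h2]⟩
      refine ⟨u2, h1, ?_, h5.1⟩
      rw [dif_pos (hclslt v u2 h1), dif_pos hlt1]
      apply Fin.ext
      show cls s(v, u2) = cls s(v, u)
      rw [h5.2, h4]
    rcases hkind s(v, u) with h4 | h4 | h4
    · -- lifted
      rcases hkind s(v, u') with h5 | h5 | h5 <;> omega
    · -- moved
      exfalso
      rcases hkind s(v, u') with h5 | h5 | h5
      · omega
      · omega
      · have h6 := (harc1 (α s(v, u')) hB.1).1 (by omega)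
        omega
    · rcases hkind s(v, u') with h5 | h5 | h5
      · -- plain, lifted
        have h6 := (harc2 (α s(v, u)) hA.1).1 (by omega)
        have hc : c ∈ palette G α v := by
          by_cases hv : bad v
          · exfalso
            have h7 := (hbad1 v hv _).1 hAS
            have h8 : α s(v, u) = F + w + 1 := by omega
            exact h4.1 ⟨h8, (hhasB v u).2 (Or.inl hv)⟩
          · have h7 : bad u' := by
              rcases (hhasB v u').1 h5.2.1 with h8 | h8
              · exact absurd h8 hv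
              · exact h8
            have h8 : R v := by
              rcases (hhasR v u').1 h5.2.2.1 with h9 | h9
              · exact h9
              · exact absurd h7 (hRbad u' h9)
            exact hR1 v h8 c (by omega) (by omega)
        refine ⟨hc, by omega, ?_⟩
        rw [(harc2 c (hSr v c hc).1).2 (by omega)]
        omega
      · -- plain, moved
        have h6 := (harc1 (α s(v, u)) hA.1).1 (by omega)
        have h7 : ¬ R v := fun h8 => h5.2.2.1 ((hhasR v u').2 (Or.inl h8))
        have h8 : F + w ∈ palette G α v := by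
          by_contra hcon
          refine h7 ((hR v).2 ⟨?_, hcon, α s(v, u), h6.1, ?_, hAS⟩)
          · rw [← h5.1]; exact hBS
          · rcases Nat.lt_or_ge (α s(v, u)) (F + w) with h9 | h9
            · exact h9
            · exfalso
              have h10 : α s(v, u) = F + w := by omega
              rw [h10] at hAS
              exact hcon hAS
        have hc : c ∈ palette G α v := by
          rcases Nat.lt_or_ge c (F + w) with h9 | h9
          · exact hP v _ _ c hAS h8 (by omega) h9 (by omega)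
          · have h10 : c = F + w := by omega
            rw [h10]; exact h8
        refine ⟨hc, by omega, ?_⟩
        rw [(harc1 c (hSr v c hc).1).2 (by omega)]
        omega
      · -- plain, plain
        have hac' : α s(v, u) < c := by omega
        have hcb' : c < α s(v, u') := by omega
        have harcc : arc (α s(v, u)) = arc (α s(v, u')) := by omega
        have hc1 : 1 ≤ c := by omega
        by_cases h6 : F + w + 1 ≤ α s(v, u)
        · have hc : c ∈ palette G α v := by
            by_cases hv : bad v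
            · exfalso
              have h7 := (hbad1 v hv _).1 hAS
              have h8 := (hbad1 v hv _).1 hBS
              have h9 : α s(v, u) = F + w + 1 := by omega
              exact h4.1 ⟨h9, (hhasB v u).2 (Or.inl hv)⟩
            · exact hgood v hv _ _ c h6 hAS hBS hac' hcb'
          refine ⟨hc, by omega, ?_⟩
          rw [(harc2 c hc1).2 (by omega), h4.2.2, (harc2 _ hA.1).2 h6]
        · by_cases h7 : F + 1 ≤ α s(v, u)
          · have h8 : arc (α s(v, u)) = m := (harc1 _ hA.1).2 ⟨h7, by omega⟩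
            have h9 := (harc1 _ hB.1).1 (harcc.symm.trans h8)
            have hc : c ∈ palette G α v := hP v _ _ c hAS hBS hac' hcb' (by omega)
            refine ⟨hc, by omega, ?_⟩
            rw [(harc1 c hc1).2 (by omega), h4.2.2, h8]
          · have h8 := harc0 _ hA.1 (show α s(v, u) ≤ F by omega)
            have h9 : α s(v, u') ≤ F := by
              by_contra hcon
              by_cases h10 : α s(v, u') ≤ F + w
              · have := (harc1 _ hB.1).2 ⟨by omega, h10⟩
                omega
              · have := (harc2 _ hB.1).2 (by omega)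
                omega
            have e1 : arc (α s(v, u)) = (α s(v, u) - 1) / w := by
              rw [harc, if_pos (by omega)]
            have e2 : arc (α s(v, u')) = (α s(v, u') - 1) / w := by
              rw [harc, if_pos h9]
            have e3 : arc c = (c - 1) / w := by
              rw [harc, if_pos (by omega)]
            have e4 : (α s(v, u) - 1) / w = (α s(v, u') - 1) / w := by omega
            have h10 : α s(v, u') < α s(v, u) + w := by
              have d1 := Nat.div_add_mod (α s(v, u) - 1) w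
              have d2 := Nat.div_add_mod (α s(v, u') - 1) w
              have d3 := Nat.mod_lt (α s(v, u') - 1) (show w > 0 by omega)
              rw [e4] at d1
              omega
            have hc : c ∈ palette G α v := hP v _ _ c hAS hBS hac' hcb' h10
            refine ⟨hc, by omega, ?_⟩
            rw [h4.2.2, e1, e3]
            apply le_antisymm
            · rw [e4]
              exact Nat.div_le_div_right (by omega)
            · exact Nat.div_le_div_right (by omega)

/-- The theorem: if `t ≤ 2k` or `t ≤ k (t + 1 - Δ) + 1`, then `θ_int(G) ≤ k`. -/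
theorem thicknessLE_cyclic [Fintype V] [DecidableEq V] (G : SimpleGraph V) [DecidableRel G.Adj]
    (t k : ℕ) (α : Sym2 V → ℕ) (hα : IsCyclicIntervalColoring G t α) (hk : 2 ≤ k)
    (ht : t ≤ 2 * k ∨ t ≤ k * (t + 1 - G.maxDegree) + 1) : ThicknessLE G k := by
  by_cases h1 : t ≤ 2 * k
  · refine thicknessLE_arcs G t k 2 α (by omega) (by omega) (by omega) hα.1 ?_
    intro v a b c ha hb hac hcb hab
    omega
  · have ht2 : t ≤ k * (t + 1 - G.maxDegree) + 1 := by
      rcases ht with h | h
      · exact absurd h h1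
      · exact h
    have hform := fun v => palette_form G hα v
    generalize t + 1 - G.maxDegree = w at ht2 hform
    have hw : 2 ≤ w := by
      by_contra hcon
      have h2 : k * w ≤ k * 1 := Nat.mul_le_mul_left k (by omega)
      omega
    by_cases h3 : t ≤ k * w
    · refine thicknessLE_arcs G t k w α (by omega) (by omega) h3 hα.1 ?_
      intro v a b c ha hb hac hcb hbw
      rcases hform v with h | ⟨p, q, hpq, hq, h⟩
      · exact h.out ha hb ⟨hac.le, hcb.le⟩
      · rw [h] at ha hb ⊢
        simp only [Set.mem_ofPred_eq] at ha hb ⊢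
        omega
    · obtain ⟨m, rfl⟩ : ∃ m, k = m + 2 := ⟨k - 2, by omega⟩
      have h4 : (m + 2) * w = m * w + 2 * w := by ring
      exact thicknessLE_main G t m w α hw (by omega) hα.1 hform

end Pool.Agent.CIT
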